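import Mathlib
import Pool.Agent.Helper50.FiveCore

/-!
# Five convex bodies in `ℝ³` never block each other under translations

In every non-overlapping family of at most five convex bodies in `ℝ³`, at least one of the bodies
can be moved along a straight line.  This answers question Q1 of `MP_0aa80c_co` in the negative.
-/

set_option autoImplicit false

namespace Pool.Agent.Results.MP_0aa80c_co.FiveBodies

open Set

/-- Euclidean three-space. -/
abbrev E3 : Type := EuclideanSpace ℝ (Fin 3)

/-- A convex body: a compact convex set with nonempty interior. -/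
def IsConvexBody (K : Set E3) : Prop := IsCompact K ∧ Convex ℝ K ∧ (interior K).Nonempty

/-- The interiors of the members are pairwise disjoint. -/
def NonOverlapping {n : ℕ} (K : Fin n → Set E3) : Prop :=
  ∀ i j, i ≠ j → interior (K i) ∩ interior (K j) = ∅

/-- `K i` is translation-blocked: for every unit vector `v` and every `ε > 0` there are
`t ∈ (0, ε)` and `j ≠ i` such that the interiors of `K i + t v` and of `K j` meet. -/
def TranslationBlocked {n : ℕ} (K : Fin n → Set E3) (i : Fin n) : Prop :=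
  ∀ v : E3, ‖v‖ = 1 → ∀ ε : ℝ, 0 < ε → ∃ t : ℝ, 0 < t ∧ t < ε ∧ ∃ j, j ≠ i ∧
    (interior ((fun x => x + t • v) '' K i) ∩ interior (K j)).Nonempty

lemma finrank_E3 : Module.finrank ℝ E3 = 3 := by simp

/-- a body is not blocked if a direction is nonpositive for all separating functionals -/
lemma not_blocked {n : ℕ} (K : Fin n → Set E3) (i : Fin n) (v : E3) (hv : v ≠ 0)
    (h : ∀ j, j ≠ i → ∃ (f : E3 →ₗ[ℝ] ℝ) (u : ℝ), (∀ a ∈ K i, f a ≤ u) ∧
      (∀ b ∈ interior (K j), u < f b) ∧ f v ≤ 0) : ¬ TranslationBlocked K i := by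
  intro hb
  have hnv : 0 < ‖v‖ := norm_pos_iff.2 hv
  obtain ⟨t, ht0, -, j, hji, x, hx1, hx2⟩ := hb ((‖v‖)⁻¹ • v)
    (by rw [norm_smul, norm_inv, norm_norm, inv_mul_cancel₀ hnv.ne']) 1 one_pos
  obtain ⟨f, u, hf1, hf2, hf3⟩ := h j hji
  obtain ⟨y, hy, rfl⟩ := interior_subset hx1
  have h1 := hf1 y hy
  have h2 := hf2 _ hx2
  simp only [map_add, map_smul, smul_eq_mul] at h2
  have h3 : t * (‖v‖⁻¹ * f v) ≤ 0 := by
    apply mul_nonpos_of_nonneg_of_nonpos ht0.le
    exact mul_nonpos_of_nonneg_of_nonpos (inv_nonneg.2 hnv.le) hf3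
  linarith

/-- two functionals on `ℝ³` have a common zero -/
lemma exists_zero {ι : Type*} [Fintype ι] (f : ι → E3 →ₗ[ℝ] ℝ) (s : Finset ι) (hs : s.card ≤ 2) :
    ∃ v : E3, v ≠ 0 ∧ ∀ k ∈ s, f k v = 0 := by
  let Φ : E3 →ₗ[ℝ] (s → ℝ) := LinearMap.pi (fun k => f k)
  have hne : LinearMap.ker Φ ≠ ⊥ := by
    apply LinearMap.ker_ne_bot_of_finrank_lt
    rw [Module.finrank_fintype_fun_eq_card, Fintype.card_coe, finrank_E3]
    omega
  obtain ⟨v, hv, hv0⟩ := (Submodule.ne_bot_iff _).1 hne
  refine ⟨v, hv0, fun k hk => ?_⟩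
  rw [LinearMap.mem_ker] at hv
  exact congrFun hv ⟨k, hk⟩

/-- a nontrivial relation between five functionals with one more linear condition -/
lemma exists_dep (f : Fin 5 → E3 →ₗ[ℝ] ℝ) (w : Fin 5 → ℝ) :
    ∃ γ : Fin 5 → ℝ, γ ≠ 0 ∧ (∀ x, ∑ j, γ j * f j x = 0) ∧ ∑ j, γ j * w j = 0 := by
  let Φ : (Fin 5 → ℝ) →ₗ[ℝ] (Module.Dual ℝ E3 × ℝ) :=
    Fintype.linearCombination ℝ (fun j => ((f j : Module.Dual ℝ E3), w j))
  have hne : LinearMap.ker Φ ≠ ⊥ := by
    apply LinearMap.ker_ne_bot_of_finrank_lt
    rw [Module.finrank_prod, Subspace.dual_finrank_eq, finrank_E3, Module.finrank_self,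
      Module.finrank_fintype_fun_eq_card, Fintype.card_fin]
    norm_num
  obtain ⟨γ, hγ, hγ0⟩ := (Submodule.ne_bot_iff _).1 hne
  rw [LinearMap.mem_ker] at hγ
  have h1 : ∑ j, γ j • (f j : Module.Dual ℝ E3) = 0 := by
    have := congrArg Prod.fst hγ
    simpa [Φ, Fintype.linearCombination_apply, Prod.fst_sum] using this
  have h2 : ∑ j, γ j * w j = 0 := by
    have := congrArg Prod.snd hγ
    simpa [Φ, Fintype.linearCombination_apply, Prod.snd_sum] using this
  refine ⟨γ, hγ0, fun x => ?_, h2⟩
  have h3 := LinearMap.congr_fun h1 x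
  simpa [LinearMap.sum_apply] using h3

/-- four functionals on `ℝ³` without a common nonpositive direction satisfy a positive relation -/
lemma positive_relation (f : Fin 5 → E3 →ₗ[ℝ] ℝ) (i : Fin 5) (hi : f i = 0)
    (hf : ∀ v : E3, v ≠ 0 → ∃ j, 0 < f j v) :
    ∃ l : Fin 5 → ℝ, (∀ j, i ≠ j → 0 < l j) ∧ ∀ x, ∑ j, l j * f j x = 0 := by
  obtain ⟨μ₀, hμne, hμ1, hμ2⟩ := exists_dep f (Pi.single i 1)
  have hμi : μ₀ i = 0 := by
    rw [Finset.sum_eq_single i] at hμ2
    · simpa using hμ2
    · intro j _ hj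
      simp [hj]
    · simp
  obtain ⟨μ, a, hμa, hμi', hμ⟩ : ∃ (μ : Fin 5 → ℝ) (a : Fin 5), 0 < μ a ∧ μ i = 0 ∧
      ∀ x, ∑ j, μ j * f j x = 0 := by
    obtain ⟨a, ha⟩ := Function.ne_iff.1 hμne
    rcases lt_or_gt_of_ne ha with h | h
    · refine ⟨-μ₀, a, by simpa using h, by simp [hμi], fun x => ?_⟩
      have := hμ1 x
      simp only [Pi.neg_apply, neg_mul, Finset.sum_neg_distrib, this, neg_zero]
    · exact ⟨μ₀, a, by simpa using h, hμi, hμ1⟩
  have hai : a ≠ i := by
    rintro rfl
    rw [hμi'] at hμa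
    exact lt_irrefl _ hμa
  refine ⟨μ, fun b hib => ?_, hμ⟩
  by_contra hb
  push Not at hb
  have hab : a ≠ b := by
    rintro rfl
    exact absurd hμa (not_lt.2 hb)
  have hcard : (({i, a, b} : Finset (Fin 5))ᶜ).card ≤ 2 := by
    have : ∀ i a b : Fin 5, a ≠ i → i ≠ b → a ≠ b → (({i, a, b} : Finset (Fin 5))ᶜ).card ≤ 2 := by
      decide
    exact this i a b hai hib hab
  obtain ⟨v, hv0, hv⟩ := exists_zero f _ hcard
  have hv' : ∀ k, k ≠ a → k ≠ b → f k v = 0 := by
    intro k hka hkb
    by_cases hki : k = i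
    · rw [hki, hi]; rfl
    · exact hv k (by simp [hki, hka, hkb])
  -- we may assume that `f b v ≤ 0`
  obtain ⟨w, hw0, hw, hwb⟩ : ∃ w : E3, w ≠ 0 ∧ (∀ k, k ≠ a → k ≠ b → f k w = 0) ∧ f b w ≤ 0 := by
    rcases le_total (f b v) 0 with h | h
    · exact ⟨v, hv0, hv', h⟩
    · refine ⟨-v, neg_ne_zero.2 hv0, fun k hka hkb => ?_, ?_⟩
      · rw [map_neg, hv' k hka hkb, neg_zero]
      · rw [map_neg]; linarith
  have hsum := hμ w
  rw [Fintype.sum_eq_add a b hab (fun x hx => by rw [hw x hx.1 hx.2, mul_zero])] at hsum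
  have hwa : f a w ≤ 0 := by
    have h1 : 0 ≤ μ b * f b w := mul_nonneg_of_nonpos_of_nonpos hb hwb
    have h2 : μ a * f a w ≤ 0 := by linarith
    by_contra h3
    push Not at h3
    have := mul_pos hμa h3
    linarith
  obtain ⟨j, hj⟩ := hf w hw0
  by_cases hja : j = a
  · rw [hja] at hj; linarith
  · by_cases hjb : j = b
    · rw [hjb] at hj; linarith
    · rw [hw j hja hjb] at hj
      exact lt_irrefl _ hj

/-- separation of two bodies -/
lemma exists_sep {n : ℕ} (K : Fin n → Set E3) (hK : ∀ i, IsConvexBody (K i))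
    (hno : NonOverlapping K) (i j : Fin n) : ∃ (f : StrongDual ℝ E3) (u : ℝ), i ≠ j →
      (∀ a ∈ interior (K i), f a < u) ∧ (∀ b ∈ interior (K j), u < f b) := by
  by_cases hij : i = j
  · exact ⟨0, 0, fun h => absurd hij h⟩
  · obtain ⟨f, u, h1, h2⟩ := geometric_hahn_banach_open_open (hK i).2.1.interior isOpen_interior
      (hK j).2.1.interior isOpen_interior (Set.disjoint_iff_inter_eq_empty.2 (hno i j hij))
    exact ⟨f, u, fun _ => ⟨h1, h2⟩⟩

/-- a strict inequality on the interior of a convex body gives a weak one on the body -/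
lemma le_of_lt_interior {K : Set E3} (hK : IsConvexBody K) (f : StrongDual ℝ E3) (u : ℝ)
    (h : ∀ a ∈ interior K, f a < u) : ∀ a ∈ K, f a ≤ u := by
  have hcl : closure (interior K) = K := by
    rw [hK.2.1.closure_interior_eq_closure_of_nonempty_interior hK.2.2,
      hK.1.isClosed.closure_eq]
  have hsub : closure (interior K) ⊆ {a | f a ≤ u} := by
    apply closure_minimal
    · intro a ha
      exact (h a ha).le
    · exact isClosed_le f.continuous continuous_const
  rw [hcl] at hsub
  exact fun a ha => hsub ha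

/-- at most four bodies: the first one can be moved -/
lemma four_bodies {n : ℕ} (hn : 1 ≤ n) (hn4 : n ≤ 4) (K : Fin n → Set E3)
    (hK : ∀ i, IsConvexBody (K i)) (hno : NonOverlapping K) : ∃ i, ¬ TranslationBlocked K i := by
  choose G U hG using exists_sep K hK hno
  let i : Fin n := ⟨0, hn⟩
  refine ⟨i, ?_⟩
  obtain ⟨v, hv0, hv⟩ : ∃ v : E3, v ≠ 0 ∧ ∀ j, j ≠ i → G i j v ≤ 0 := by
    by_cases h : ∃ a, a ≠ i
    · obtain ⟨a, ha⟩ := h
      have hcard : (({i, a} : Finset (Fin n))ᶜ).card ≤ 2 := by
        rw [Finset.card_compl, Fintype.card_fin, Finset.card_pair ha.symm]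
        omega
      obtain ⟨v, hv0, hv⟩ := exists_zero (fun k => (G i k : E3 →ₗ[ℝ] ℝ)) _ hcard
      have hv' : ∀ k, k ≠ i → k ≠ a → G i k v = 0 := fun k hki hka =>
        hv k (by simp [hki, hka])
      rcases le_total (G i a v) 0 with h | h
      · refine ⟨v, hv0, fun j hj => ?_⟩
        by_cases hja : j = a
        · rw [hja]; exact h
        · exact (hv' j hj hja).le
      · refine ⟨-v, neg_ne_zero.2 hv0, fun j hj => ?_⟩
        by_cases hja : j = a
        · rw [hja, map_neg]; linarith
        · rw [map_neg, hv' j hj hja, neg_zero]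
    · push Not at h
      obtain ⟨v, hv⟩ := exists_ne (0 : E3)
      exact ⟨v, hv, fun j hj => absurd (h j) hj⟩
  refine not_blocked K i v hv0 (fun j hj => ⟨(G i j : E3 →ₗ[ℝ] ℝ), U i j, ?_, ?_, ?_⟩)
  · exact le_of_lt_interior (hK i) _ _ (hG i j hj.symm).1
  · exact (hG i j hj.symm).2
  · exact hv j hj

/-- the case of exactly five bodies -/
lemma five_bodies (K : Fin 5 → Set E3) (hK : ∀ i, IsConvexBody (K i)) (hno : NonOverlapping K) :
    ∃ i, ¬ TranslationBlocked K i := by
  by_contra hcon
  push Not at hcon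
  choose G U hG using exists_sep K hK hno
  -- antisymmetric choice of the separating planes
  let N : Fin 5 → Fin 5 → StrongDual ℝ E3 := fun i j =>
    (if i < j then G i j else 0) - (if j < i then G j i else 0)
  let D : Fin 5 → Fin 5 → ℝ := fun i j =>
    (if i < j then U i j else 0) - (if j < i then U j i else 0)
  have hN : ∀ i j, N j i = - N i j := fun i j => by simp only [N, neg_sub]
  have hD : ∀ i j, D j i = - D i j := fun i j => by simp only [D, neg_sub]
  have hlt : ∀ i j, i ≠ j → ∀ a ∈ interior (K i), N i j a < D i j := by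
    intro i j hij a ha
    rcases lt_or_gt_of_ne hij with h | h
    · have h1 : N i j = G i j := by simp [N, h, h.not_gt]
      have h2 : D i j = U i j := by simp [D, h, h.not_gt]
      rw [h1, h2]
      exact (hG i j hij).1 a ha
    · have h1 : N i j = - G j i := by simp [N, h, h.not_gt]
      have h2 : D i j = - U j i := by simp [D, h, h.not_gt]
      rw [h1, h2]
      have := (hG j i hij.symm).2 a ha
      simpa using this
  have hle : ∀ i j, i ≠ j → ∀ a ∈ K i, N i j a ≤ D i j := fun i j hij =>
    le_of_lt_interior (hK i) _ _ (hlt i j hij)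
  have hgt : ∀ i j, i ≠ j → ∀ b ∈ interior (K j), D i j < N i j b := by
    intro i j hij b hb
    have := hlt j i hij.symm b hb
    rw [hN i j, hD i j] at this
    simpa using this
  have hNii : ∀ i, N i i = 0 := fun i => by simp [N]
  have hDii : ∀ i, D i i = 0 := fun i => by simp [D]
  -- every direction is blocked to first order
  have hpos : ∀ i (v : E3), v ≠ 0 → ∃ j, 0 < N i j v := by
    intro i v hv
    by_contra h
    push Not at h
    refine absurd (hcon i) (not_blocked K i v hv (fun j hj =>
      ⟨(N i j : E3 →ₗ[ℝ] ℝ), D i j, hle i j hj.symm, hgt i j hj.symm, h j⟩))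
  -- positive relations
  have hrel : ∀ i, ∃ l : Fin 5 → ℝ, (∀ j, i ≠ j → 0 < l j) ∧ ∀ x, ∑ j, l j * N i j x = 0 := by
    intro i
    exact positive_relation (fun j => (N i j : E3 →ₗ[ℝ] ℝ)) i (by simp [hNii]) (hpos i)
  choose l hl hlsum using hrel
  -- contact points
  have hcontact : ∀ i j, ∃ x, i ≠ j → x ∈ K i ∧ x ∈ K j := by
    intro i j
    by_cases hij : i = j
    · exact ⟨0, fun h => absurd hij h⟩
    by_contra h
    push Not at h
    have hdisj : Disjoint (K i) (K j) := by
      rw [Set.disjoint_left]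
      intro x hx
      exact (h x).2 hx
    obtain ⟨m, hmi, hmj⟩ : ∃ m : Fin 5, m ≠ i ∧ m ≠ j := by
      have : ∀ i j : Fin 5, ∃ m : Fin 5, m ≠ i ∧ m ≠ j := by decide
      exact this i j
    have hcard : (({i, j, m} : Finset (Fin 5))ᶜ).card ≤ 2 := by
      have : ∀ i j m : Fin 5, i ≠ j → m ≠ i → m ≠ j →
          (({i, j, m} : Finset (Fin 5))ᶜ).card ≤ 2 := by decide
      exact this i j m hij hmi hmj
    obtain ⟨v, hv0, hv⟩ := exists_zero (fun k => (N i k : E3 →ₗ[ℝ] ℝ)) _ hcard
    have hv' : ∀ k, k ≠ j → k ≠ m → N i k v = 0 := by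
      intro k hkj hkm
      by_cases hki : k = i
      · rw [hki, hNii]; rfl
      · exact hv k (by simp [hki, hkj, hkm])
    obtain ⟨w, hw0, hw⟩ : ∃ w : E3, w ≠ 0 ∧ ∀ k, k ≠ j → N i k w ≤ 0 := by
      rcases le_total (N i m v) 0 with h | h
      · refine ⟨v, hv0, fun k hkj => ?_⟩
        by_cases hkm : k = m
        · rw [hkm]; exact h
        · exact (hv' k hkj hkm).le
      · refine ⟨-v, neg_ne_zero.2 hv0, fun k hkj => ?_⟩
        by_cases hkm : k = m
        · rw [hkm, map_neg]; linarith
        · rw [map_neg, hv' k hkj hkm, neg_zero]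
    obtain ⟨δ, hδ, hδd⟩ := hdisj.exists_thickenings (hK i).1 (hK j).1.isClosed
    have hnw : 0 < ‖w‖ := norm_pos_iff.2 hw0
    have hunit : ‖(‖w‖)⁻¹ • w‖ = 1 := by
      rw [norm_smul, norm_inv, norm_norm, inv_mul_cancel₀ hnw.ne']
    obtain ⟨t, ht0, htδ, k, hki, x, hx1, hx2⟩ := hcon i ((‖w‖)⁻¹ • w) hunit δ hδ
    obtain ⟨y, hy, rfl⟩ := interior_subset hx1
    by_cases hkj : k = j
    · subst hkj
      have m1 : y + t • (‖w‖)⁻¹ • w ∈ Metric.thickening δ (K i) := by
        rw [Metric.mem_thickening_iff]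
        refine ⟨y, hy, ?_⟩
        rw [dist_eq_norm, add_sub_cancel_left, norm_smul, hunit, Real.norm_eq_abs,
          abs_of_pos ht0, mul_one]
        exact htδ
      exact Set.disjoint_left.1 hδd m1
        (Metric.self_subset_thickening hδ _ (interior_subset hx2))
    · have h1 := hle i k (Ne.symm hki) y hy
      have h2 := hgt i k (Ne.symm hki) _ hx2
      simp only [map_add, map_smul, smul_eq_mul] at h2
      have h3 : t * (‖w‖⁻¹ * N i k w) ≤ 0 := by
        apply mul_nonpos_of_nonneg_of_nonpos ht0.le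
        exact mul_nonpos_of_nonneg_of_nonpos (inv_nonneg.2 hnw.le) (hw k hkj)
      linarith
  choose P hP using hcontact
  choose z hz using fun i => (hK i).2.2
  have hpmem : ∀ i j, i ≠ j → (if i < j then P i j else P j i) ∈ K i := by
    intro i j hij
    rcases lt_or_gt_of_ne hij with h | h
    · rw [if_pos h]; exact (hP i j hij).1
    · rw [if_neg h.not_gt]; exact (hP j i hij.symm).2
  let C : Helper50.FiveCore.Config E3 :=
    { n := fun i j => (N i j : E3 →ₗ[ℝ] ℝ)
      d := D
      n_anti := fun i j => by rw [hN i j]; rfl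
      d_anti := hD
      l := l
      l_pos := fun i j hij => hl i j hij
      r := fun i => ∑ j, l i j * D i j
      r_pos := fun i => by
        have h1 : ∑ j, l i j * N i j (z i) - ∑ j, l i j * D i j < 0 := by
          rw [← Finset.sum_sub_distrib]
          apply Finset.sum_neg'
          · intro j _
            by_cases hij : i = j
            · subst hij; simp [hNii, hDii]
            · have := mul_neg_of_pos_of_neg (hl i j hij)
                (sub_neg.2 (hlt i j hij (z i) (hz i)))
              linarith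
          · obtain ⟨j, hij⟩ : ∃ j : Fin 5, i ≠ j := by
              have : ∀ i : Fin 5, ∃ j : Fin 5, i ≠ j := by decide
              exact this i
            refine ⟨j, Finset.mem_univ _, ?_⟩
            have := mul_neg_of_pos_of_neg (hl i j hij)
              (sub_neg.2 (hlt i j hij (z i) (hz i)))
            linarith
        rw [hlsum i (z i)] at h1
        linarith
      p := fun i j => if i < j then P i j else P j i
      p_symm := fun i j => by
        rcases lt_trichotomy i j with h | h | h
        · rw [if_pos h, if_neg h.not_gt]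
        · rw [h]
        · rw [if_neg h.not_gt, if_pos h]
      z := z
      rel := fun i x => by
        have : ∑ j, l i j * ((N i j : E3 →ₗ[ℝ] ℝ) x - D i j) =
            ∑ j, l i j * N i j x - ∑ j, l i j * D i j := by
          rw [← Finset.sum_sub_distrib]
          apply Finset.sum_congr rfl
          intro j _
          simp only [ContinuousLinearMap.coe_coe]
          ring
        rw [this, hlsum i x, zero_sub]
      inj := fun i v hv => by
        by_contra hne
        obtain ⟨j, hj⟩ := hpos i v hne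
        have := hv j
        simp only [ContinuousLinearMap.coe_coe] at this
        rw [this] at hj
        exact lt_irrefl _ hj
      p_le := fun i j k hij => by
        have hm := hpmem i j hij
        by_cases hik : i = k
        · subst hik; simp [hNii, hDii]
        · have := hle i k hik _ hm
          simp only [ContinuousLinearMap.coe_coe]
          linarith
      z_lt := fun i j hij => by
        have := hlt i j hij (z i) (hz i)
        simp only [ContinuousLinearMap.coe_coe]
        linarith }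
  exact C.absurd_config finrank_E3

/-- **Answer to Q1 (negative).** In every non-overlapping family of at most five (in particular, of
exactly five) convex bodies in `ℝ³`, at least one body is not translation-blocked.  Hence there is
no non-overlapping, translation-self-blocking family of five convex bodies in `ℝ³`. -/
theorem result (n : ℕ) (hn1 : 1 ≤ n) (hn5 : n ≤ 5) (K : Fin n → Set E3)
    (hK : ∀ i, IsConvexBody (K i)) (hno : NonOverlapping K) : ∃ i, ¬ TranslationBlocked K i := by
  rcases Nat.lt_or_ge n 5 with h | h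
  · exact four_bodies hn1 (by omega) K hK hno
  · obtain rfl : n = 5 := le_antisymm hn5 h
    exact five_bodies K hK hno

end Pool.Agent.Results.MP_0aa80c_co.FiveBodies
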